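import Pool.Agent.H66.XP.TH

/-!
Row HIT of the board xpm: the probability of a hit.
-/

set_option autoImplicit false

namespace Pool.Agent.H49.XP

open Finset Pool.Agent.H6.NB Pool.Agent.H70.OQ Pool.Agent.H70.EH Pool.Agent.H70.EI Pool.Agent.H78.XQ
open Pool.Agent.H66.IP (Local ins sp dm IsZ scl)
open Pool.Agent.H66.IQ Pool.Agent.H66.AV
open Pool.Agent.H75.OM (BPos)
open Pool.Agent.H66.XP

private lemma hit_num (M : ℕ) :
    ∑ n ∈ Ico 60 M, (2 : ℝ) ^ (2 * (n / 3)) / 2 ^ n ≤ 1 / 4 := by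
  have h1 : ∀ n ∈ Ico 60 M, (2 : ℝ) ^ (2 * (n / 3)) / 2 ^ n ≤ (4 / 5) ^ n := by
    intro n _
    rw [div_le_iff₀ (by positivity)]
    obtain ⟨m, r, hr, hn⟩ : ∃ m r, r < 3 ∧ n = 3 * m + r := ⟨n / 3, n % 3, by omega, by omega⟩
    have hd : n / 3 = m := by omega
    rw [hd, hn, ← mul_pow, pow_add, pow_mul, pow_mul]
    have h2 : ((2 : ℝ) ^ 2) ^ m ≤ ((4 / 5 * 2) ^ 3) ^ m := by
      refine pow_le_pow_left₀ (by norm_num) (by norm_num) m
    have h3 : (1 : ℝ) ≤ (4 / 5 * 2) ^ r := one_le_pow₀ (by norm_num)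
    calc ((2 : ℝ) ^ 2) ^ m ≤ ((4 / 5 * 2) ^ 3) ^ m * 1 := by rw [mul_one]; exact h2
      _ ≤ ((4 / 5 * 2) ^ 3) ^ m * (4 / 5 * 2) ^ r := by gcongr
  refine (Finset.sum_le_sum h1).trans ?_
  refine (geom_sum_Ico_le_of_lt_one (by norm_num) (by norm_num)).trans ?_
  norm_num

private lemma hit_comm {α β γ : Type} (s : Finset ℕ) (a : Finset α) (b : Finset β)
    (c : Finset γ) (f : ℕ → α → β → γ → ℝ) :
    ∑ x ∈ a, ∑ y ∈ b, ∑ z ∈ c, ∑ n ∈ s, f n x y z = ∑ n ∈ s, ∑ x ∈ a, ∑ y ∈ b, ∑ z ∈ c, f n x y z :=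
  (Finset.sum_congr rfl fun x _ => (Finset.sum_congr rfl fun y _ =>
    Finset.sum_comm).trans Finset.sum_comm).trans Finset.sum_comm

open Classical in
theorem pf_HIT (hHTN : T_HTN) (hGZX : T_GZX) (hCNX : T_CNX) (hWMX : T_WMX) : T_HIT := by
  intro V M E O hO
  have hsc : ∀ a, 20 ≤ scl (lo V) a := (hCNX V E 0).2.2
  have hpt : ∀ (z : Za M) (B P : ∀ p : {a // a ∈ E}, Cp V p.1),
      (if ∃ a ∈ E, Hit V E O (gzx M z) P B a then (1 : ℝ) else 0) ≤
      ∑ n ∈ Ico 60 M, (if ∃ a ∈ E, 3 * scl (lo V) a ≤ n ∧ ∃ (k : ℕ) (x : Fin n → Bool)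
        (q : Nn n k), astr n k x q ∈ tq V E O (gzx M z) P B a ∧
          gzx M z (astr n k x q) = false then (1 : ℝ) else 0) := by
    intro z B P
    have h0 : ∀ n ∈ Ico 60 M, (0 : ℝ) ≤ (if ∃ a ∈ E, 3 * scl (lo V) a ≤ n ∧
        ∃ (k : ℕ) (x : Fin n → Bool) (q : Nn n k), astr n k x q ∈ tq V E O (gzx M z) P B a ∧
          gzx M z (astr n k x q) = false then (1 : ℝ) else 0) := by
      intro n _
      split_ifs <;> norm_num
    by_cases h : ∃ a ∈ E, Hit V E O (gzx M z) P B a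
    · rw [if_pos h]
      obtain ⟨a, ha, n, k, x, q, h1, h2, h3⟩ := h
      have h4 : k < M ∧ n < M := by
        by_contra hcon
        rw [hGZX.2.2.1 M z n k x q hcon] at h3
        exact absurd h3 (by decide)
      have hn : n ∈ Ico 60 M := by
        rw [Finset.mem_Ico]
        have := hsc a
        omega
      refine le_trans ?_ (Finset.single_le_sum h0 hn)
      rw [if_pos ⟨a, ha, h1, k, x, q, h2, h3⟩]
    · rw [if_neg h]
      exact Finset.sum_nonneg h0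
  have hstep : ∑ z : Za M, ∑ B, ∑ P, wY V E O (gzx M z) B P *
      (if ∃ a ∈ E, Hit V E O (gzx M z) P B a then (1 : ℝ) else 0) ≤
      ∑ n ∈ Ico 60 M, ∑ z : Za M, ∑ B, ∑ P, wY V E O (gzx M z) B P *
        (if ∃ a ∈ E, 3 * scl (lo V) a ≤ n ∧ ∃ (k : ℕ) (x : Fin n → Bool) (q : Nn n k),
          astr n k x q ∈ tq V E O (gzx M z) P B a ∧ gzx M z (astr n k x q) = false
            then (1 : ℝ) else 0) := by
    rw [← hit_comm]
    refine Finset.sum_le_sum fun z _ => Finset.sum_le_sum fun B _ =>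
      Finset.sum_le_sum fun P _ => ?_
    rw [← Finset.mul_sum]
    exact mul_le_mul_of_nonneg_left (hpt z B P) ((hWMX V E O hO (gzx M z) B).1 P).1
  refine hstep.trans ?_
  calc _ ≤ ∑ n ∈ Ico 60 M, (Fintype.card (Za M) * nC V E * (2 ^ (2 * (n / 3)) / 2 ^ n) : ℝ) :=
        Finset.sum_le_sum fun n _ => hHTN V M n E O hO
    _ = Fintype.card (Za M) * nC V E * ∑ n ∈ Ico 60 M, (2 : ℝ) ^ (2 * (n / 3)) / 2 ^ n := by
        rw [Finset.mul_sum]
    _ ≤ Fintype.card (Za M) * nC V E * (1 / 4) := by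
        refine mul_le_mul_of_nonneg_left (hit_num M) ?_
        refine mul_nonneg (Nat.cast_nonneg _) ?_
        unfold nC
        exact Nat.cast_nonneg _

end Pool.Agent.H49.XP
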